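import Pool.Agent.MP_216eb3_nt.GIT.R1
import Pool.Agent.MP_216eb3_nt.GIT.R2
import Pool.Agent.MP_216eb3_nt.GIT.R3
import Pool.Agent.MP_216eb3_nt.GIT.R4
import Pool.Agent.MP_216eb3_nt.GIT.R6
import Pool.Agent.MP_216eb3_nt.GIT.R7
import Pool.Agent.MP_216eb3_nt.GIT.R8
import Pool.Agent.MP_216eb3_nt.GIT.R9
import Pool.Agent.MP_216eb3_nt.GIT.R10
import Pool.Agent.MP_216eb3_nt.GIT.R11a
import Pool.Agent.MP_216eb3_nt.GIT.R11b
import Pool.Agent.MP_216eb3_nt.GIT.R11c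
import Pool.Agent.MP_216eb3_nt.GIT.R13
import Pool.Agent.MP_216eb3_nt.GIT.R14
import Pool.Agent.MP_216eb3_nt.GIT.R15
import Pool.Agent.MP_216eb3_nt.GIT.R16
import Pool.Agent.MP_216eb3_nt.GIT.R17
import Pool.Agent.MP_216eb3_nt.GIT.Fin

set_option autoImplicit false

namespace Pool.Agent.Results.MP_216eb3_nt.SharpGIT

open Pool.Agent.MP_216eb3_nt.GIT

/-- The minimal height in a conjugacy class of rational maps of degree at least two lies between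
the moduli height and twice the moduli height, up to a constant; both factors are optimal. -/
theorem result (d : ℕ) (hd : 2 ≤ d) :
    (∃ (M k : ℕ) (I : Fin M → MvPolynomial (Cf d) Qb), IsGIT k I) ∧
    ∀ (M k : ℕ) (I : Fin M → MvPolynomial (Cf d) Qb), IsGIT k I →
      (∀ c : Cf d → Qb, IsRat c → (fun j => MvPolynomial.eval c (I j)) ≠ 0) ∧
      ∃ K : ℝ,
        (∀ c : Cf d → Qb, IsRat c → hG k I c - K ≤ hmin c ∧ hmin c ≤ 2 * hG k I c + K) ∧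
        (∀ T : ℝ, ∃ c : Cf d → Qb, IsRat c ∧ T ≤ hG k I c ∧ hmin c ≤ hG k I c + K) ∧
        (∀ T : ℝ, ∃ c : Cf d → Qb, IsRat c ∧ T ≤ hG k I c ∧ 2 * hG k I c - K ≤ hmin c) := by
  obtain ⟨n, rfl⟩ : ∃ n, d = n + 1 := ⟨d - 1, by omega⟩
  have hn : 1 ≤ n := by omega
  have h1 := r6_L1 r1_Gauss r2_Fac r2_Res r3_Tr r4_Div r4_Conj
  have hN := r7_Null r7_PB
  have hU := r8_Unst h1 hN
  have hS := r11c_PS r11a_Ext r11b_MK
  have hL := r10_Loc r1_Gauss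
  refine ⟨r7_Ex _, fun M k I hI => ⟨r9_ne hU n hn M k I hI, ?_⟩⟩
  exact fin_main r11a_Ht hS (r10_Data (r9_LL hU (r8_L2 h1) hN) (r9_ne hU)) (r13_Key1 r2_Fac hL)
    (r14_Key2 r1_Gauss hL r4_Conj r11a_Ht) (r15_Low r7_PB hS r11a_Ht)
    (r16_S1 hU r7_PB hS (r9_ne hU)) (r15_S2a r7_PB hS r11a_Ht) (r17_S2b hS r11a_Ht)
    n hn M k I hI

end Pool.Agent.Results.MP_216eb3_nt.SharpGIT
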